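import Pool.Agent.W2helper5.KA.Stm

/-!
# Project KA, piece GRP: the bicrossed product of a matched pair of groups
-/

set_option autoImplicit false

namespace Pool.Agent.W2helper51.KA

open Pool.Agent.W2helper5.KA

section

variable {k F Γ : Type} [Field k] [Group F] [Group Γ] (D : Dat k F Γ)

theorem r_one_left (x : F) : D.r 1 x = 1 := by
  have h := D.r_st 1 1 x
  rw [D.l_one, one_mul] at h
  exact left_eq_mul.mp h

theorem l_one_right (s : Γ) : D.l s 1 = 1 := by
  have h := D.l_xy s 1 1
  rw [D.r_one, one_mul] at h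
  exact left_eq_mul.mp h

/-- the elements of the bicrossed product -/
@[ext] structure Bic (D : Dat k F Γ) : Type where
  fst : F
  snd : Γ

instance : Mul (Bic D) := ⟨fun p q => ⟨p.fst * D.l p.snd q.fst, D.r p.snd q.fst * q.snd⟩⟩

instance : One (Bic D) := ⟨⟨1, 1⟩⟩

instance : Inv (Bic D) := ⟨fun p => ⟨D.l p.snd⁻¹ p.fst⁻¹, D.r p.snd⁻¹ p.fst⁻¹⟩⟩

theorem mul_fst (p q : Bic D) : (p * q).fst = p.fst * D.l p.snd q.fst := rfl

theorem mul_snd (p q : Bic D) : (p * q).snd = D.r p.snd q.fst * q.snd := rfl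

theorem one_fst : (1 : Bic D).fst = 1 := rfl

theorem one_snd : (1 : Bic D).snd = 1 := rfl

theorem inv_fst (p : Bic D) : (p⁻¹).fst = D.l p.snd⁻¹ p.fst⁻¹ := rfl

theorem inv_snd (p : Bic D) : (p⁻¹).snd = D.r p.snd⁻¹ p.fst⁻¹ := rfl

/-- the group structure -/
instance : Group (Bic D) := Group.ofLeftAxioms
  (by
    intro a b c
    ext
    · simp only [mul_fst, mul_snd]
      rw [D.l_xy, D.l_mul, mul_assoc]
    · simp only [mul_fst, mul_snd]
      rw [D.r_mul, D.r_st, mul_assoc])
  (by
    intro a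
    ext
    · rw [mul_fst, one_fst, one_snd, D.l_one, one_mul]
    · rw [mul_snd, one_snd, r_one_left, one_mul])
  (by
    intro a
    ext
    · rw [mul_fst, inv_fst, inv_snd, ← D.l_xy, inv_mul_cancel, l_one_right]
      rfl
    · rw [mul_snd, inv_snd, ← D.r_mul, inv_mul_cancel, D.r_one, inv_mul_cancel]
      rfl)

/-- the underlying set is the product -/
def equ : Bic D ≃ F × Γ where
  toFun p := (p.fst, p.snd)
  invFun p := ⟨p.1, p.2⟩
  left_inv _ := rfl
  right_inv _ := rfl

end

/-- GRP -/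
theorem GRP : P_GRP := by
  intro k F Γ _ _ _ _ _ D
  refine ⟨Bic D, inferInstance, Finite.of_equiv _ (equ D).symm,
    { toFun := fun x => ⟨x, 1⟩, map_one' := rfl, map_mul' := ?_ },
    { toFun := fun s => ⟨1, s⟩, map_one' := rfl, map_mul' := ?_ }, ?_, ?_, ?_, ?_, ?_, ?_⟩
  · intro x y
    ext
    · rw [mul_fst]
      simp only [D.l_one]
    · rw [mul_snd]
      simp only [r_one_left, one_mul]
  · intro s t
    ext
    · rw [mul_fst]
      simp only [l_one_right, one_mul]
    · rw [mul_snd]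
      simp only [D.r_one]
  · intro x y h
    exact congrArg Bic.fst h
  · intro x y h
    exact congrArg Bic.snd h
  · intro g
    refine ⟨g.fst, g.snd, ?_⟩
    ext
    · rw [mul_fst]
      simp only [MonoidHom.coe_mk, OneHom.coe_mk, D.l_one, mul_one]
    · rw [mul_snd]
      simp only [MonoidHom.coe_mk, OneHom.coe_mk, r_one_left, one_mul]
  · intro x s h
    exact ⟨congrArg Bic.fst h, (congrArg Bic.snd h).symm⟩
  · intro s x
    ext
    · rw [mul_fst, mul_fst]
      simp only [MonoidHom.coe_mk, OneHom.coe_mk, D.l_one, mul_one, one_mul]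
    · rw [mul_snd, mul_snd]
      simp only [MonoidHom.coe_mk, OneHom.coe_mk, r_one_left, one_mul, mul_one]
  · rw [Nat.card_congr (equ D), Nat.card_prod, Nat.card_eq_fintype_card, Nat.card_eq_fintype_card]

end Pool.Agent.W2helper51.KA
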